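import Pool.Agent.H.MP_44343f_gt.Sec

namespace Pool.Agent.H.MP_44343f_gt

open Matrix

def ph (p : V 4) : V 5 := ![p 0, 0, p 1, p 2, p 3]

lemma ld_ph (p u : V 4) : lineDeriv ℝ ph p u = ph u := by
  have : HasDerivAt (fun r : ℝ => ph (p + r • u)) (ph u) 0 := by
    rw [hasDerivAt_pi]
    intro i
    fin_cases i
    · exact hd_coord p u 0
    · exact hasDerivAt_const _ _
    · exact hd_coord p u 1
    · exact hd_coord p u 2
    · exact hd_coord p u 3
  exact this.deriv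

lemma ld_const {m n : ℕ} (c : V n) (p u : V m) : lineDeriv ℝ (fun _ : V m => c) p u = 0 := by
  simp [lineDeriv]

lemma fA_ph (p : V 4) : fA (ph p) = 1 := by simp [fA, ph]
lemma f1_ph (p : V 4) : f1 (ph p) = 0 := by simp [f1, fAs, ph]
lemma f2_ph (p : V 4) : f2 (ph p) = - p 0 := by rw [f2, fA_ph]; simp [fAt, ph]
lemma ass_ph (p : V 4) : ass (ph p) = 0 := by rw [ass, f1_ph]; simp [ph]
lemma ast_ph (p : V 4) : ast (ph p) = -1 := by
  rw [ast, f1_ph, fA_ph]; simp [ph]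
lemma att_ph (p : V 4) : att (ph p) = (p 0) ^ 2 + 6 := by
  rw [att, f2_ph, fA_ph]; simp [ph]; ring
lemma ph_zero (p : V 4) : ph p 0 = p 0 := rfl

noncomputable def gg : Met 4 := fun p => Matrix.diagonal ![1, fe (p 0), fe (p 0), fe (p 0)]

lemma ind_eq : ind hh ph = gg := by
  funext p
  ext i j
  simp only [ind, ld_ph, ip_hh, fA_ph, ph_zero, Matrix.of_apply]
  fin_cases i <;> fin_cases j <;> simp [gg, ph, bv, sg]

def sg4 (u v : V 4) : ℝ := u 1 * v 1 + u 2 * v 2 + u 3 * v 3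

lemma ip_gg (x u v : V 4) : ip (gg x) u v = u 0 * v 0 + fe (x 0) * sg4 u v := by
  simp [ip, gg, sg4, dotProduct, Matrix.mulVec_diagonal, Fin.sum_univ_four]
  ring

lemma ld_ipg (x u v w : V 4) :
    lineDeriv ℝ (fun z => ip (gg z) u v) x w = 2 * fp (x 0) * fe (x 0) * w 0 * sg4 u v := by
  have he := hd_e (hd_coord x w 0)
  have := (he.mul_const (sg4 u v)).const_add (u 0 * v 0)
  have h2 : HasDerivAt (fun r : ℝ => ip (gg (x + r • w)) u v) _ 0 :=
    this.congr_of_eventuallyEq (Filter.Eventually.of_forall fun r => by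
      simp only [ip_gg])
  rw [lineDeriv, h2.deriv]
  simp

lemma gg_inv (x : V 4) : (gg x)⁻¹ = Matrix.diagonal
    ![1, (fe (x 0))⁻¹, (fe (x 0))⁻¹, (fe (x 0))⁻¹] := by
  have he := (fe_pos (x 0)).ne'
  apply Matrix.inv_eq_right_inv
  rw [gg, Matrix.diagonal_mul_diagonal, ← Matrix.diagonal_one]
  congr 1
  funext i
  fin_cases i <;> simp <;> field_simp

lemma chr_gg (x u v : V 4) : chr gg x u v =
    ![- fp (x 0) * fe (x 0) * sg4 u v, fp (x 0) * (u 0 * v 1 + u 1 * v 0),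
      fp (x 0) * (u 0 * v 2 + u 2 * v 0), fp (x 0) * (u 0 * v 3 + u 3 * v 0)] := by
  have he := (fe_pos (x 0)).ne'
  unfold chr
  simp only [ld_ipg, gg_inv]
  funext k
  rw [Matrix.mulVec_diagonal]
  fin_cases k <;> simp [bv, sg4] <;> field_simp

lemma chr_ph (p : V 4) (u v : V 5) : chr hh (ph p) u v =
    G 0 (- p 0) (fp (p 0) * fe (p 0)) (- p 0) (- p 0 * fe (p 0)) (fp (p 0)) u v := by
  rw [chr_hh, fA_ph, f1_ph, f2_ph, ph_zero]
  congr 1 <;> ring

lemma sum_diag {n : ℕ} (d : Fin 4 → ℝ) (F : Fin 4 → Fin 4 → V n) :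
    ∑ i, ∑ j, Matrix.diagonal d i j • F i j =
      d 0 • F 0 0 + d 1 • F 1 1 + d 2 • F 2 2 + d 3 • F 3 3 := by
  have : ∀ i, ∑ j, Matrix.diagonal d i j • F i j = d i • F i i := by
    intro i
    rw [Finset.sum_eq_single i]
    · simp
    · intro j _ hj
      rw [Matrix.diagonal_apply_ne _ (Ne.symm hj), zero_smul]
    · simp
  simp only [this, Fin.sum_univ_four]

def tau (p : V 4) : V 5 := ![0, 4 * p 0, 0, 0, 0]

lemma tension_eq : tension hh ph = tau := by
  funext p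
  have he := (fe_pos (p 0)).ne'
  unfold tension
  rw [ind_eq, gg_inv, sum_diag]
  simp only [cov, ld_ph, ld_const, chr_ph, chr_gg]
  funext k
  fin_cases k <;> simp [G, ph, bv, sg, sg4, tau] <;> field_simp <;> ring

lemma ld_tau (p u : V 4) : lineDeriv ℝ tau p u = ![0, 4 * u 0, 0, 0, 0] := by
  have : HasDerivAt (fun r : ℝ => tau (p + r • u)) ![0, 4 * u 0, 0, 0, 0] 0 := by
    rw [hasDerivAt_pi]
    intro i
    fin_cases i
    · exact hasDerivAt_const _ _
    · exact (hd_coord p u 0).const_mul 4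
    · exact hasDerivAt_const _ _
    · exact hasDerivAt_const _ _
    · exact hasDerivAt_const _ _
  exact this.deriv

def ct (u p : V 4) : V 5 :=
  ![-4 * u 0 * (p 0) ^ 2, 4 * u 0, -4 * u 1 * (p 0) ^ 2, -4 * u 2 * (p 0) ^ 2,
    -4 * u 3 * (p 0) ^ 2]

lemma cov_tau (u : V 4) : cov hh ph u tau = ct u := by
  funext p
  simp only [cov, ld_ph, ld_tau, chr_ph]
  funext k
  fin_cases k <;> simp [G, ph, sg, tau, ct] <;> ring

lemma ld_ct (u p w : V 4) : lineDeriv ℝ (ct u) p w =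
    ![-8 * u 0 * p 0 * w 0, 0, -8 * u 1 * p 0 * w 0, -8 * u 2 * p 0 * w 0,
      -8 * u 3 * p 0 * w 0] := by
  have h0 := (hd_coord p w 0).pow 2
  have key : ∀ c : ℝ, HasDerivAt (fun r : ℝ => -4 * c * ((p + r • w) 0) ^ 2)
      (-8 * c * p 0 * w 0) 0 := by
    intro c
    refine HasDerivAt.congr_deriv (h0.const_mul (-4 * c)) ?_
    simp; ring
  have : HasDerivAt (fun r : ℝ => ct u (p + r • w))
      ![-8 * u 0 * p 0 * w 0, 0, -8 * u 1 * p 0 * w 0, -8 * u 2 * p 0 * w 0,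
        -8 * u 3 * p 0 * w 0] 0 := by
    rw [hasDerivAt_pi]
    intro i
    fin_cases i
    · exact key _
    · exact hasDerivAt_const _ _
    · exact key _
    · exact key _
    · exact key _
  exact this.deriv

lemma bitension_eq (p : V 4) : bitension hh ph p = 0 := by
  have he := (fe_pos (p 0)).ne'
  unfold bitension
  rw [ind_eq, gg_inv, sum_diag, tension_eq]
  simp only [cov_tau]
  simp only [cov, curv, ld_ph, ld_ct, ld_chr, chr_ph, chr_gg, fA_ph, f1_ph, f2_ph, ass_ph, ast_ph,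
    att_ph, ph_zero]
  funext k
  fin_cases k <;> simp [G, ph, bv, sg, sg4, tau, ct] <;> field_simp <;> simp only [fp] <;> ring

end Pool.Agent.H.MP_44343f_gt
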