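import Pool.Agent.H.MP_44343f_gt.Defs

namespace Pool.Agent.H.MP_44343f_gt

open Matrix

def fA (x : V 5) : ℝ := 1 - x 0 * x 1 + (x 0) ^ 2 * (x 1) ^ 2 + 3 * (x 1) ^ 2
def fAs (x : V 5) : ℝ := - x 1 + 2 * x 0 * (x 1) ^ 2
def fAt (x : V 5) : ℝ := - x 0 + 2 * (x 0) ^ 2 * x 1 + 6 * x 1
def fp (s : ℝ) : ℝ := 4 * s ^ 3 + 8 * s
def fq (s : ℝ) : ℝ := 12 * s ^ 2 + 8
noncomputable def fe (s : ℝ) : ℝ := Real.exp (2 * (s ^ 4 + 4 * s ^ 2))
noncomputable def f1 (x : V 5) : ℝ := fAs x / fA x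
noncomputable def f2 (x : V 5) : ℝ := fAt x / fA x
noncomputable def ass (x : V 5) : ℝ := 2 * (x 1) ^ 2 / fA x - (f1 x) ^ 2
noncomputable def ast (x : V 5) : ℝ := (-1 + 4 * x 0 * x 1) / fA x - f1 x * f2 x
noncomputable def att (x : V 5) : ℝ := (2 * (x 0) ^ 2 + 6) / fA x - (f2 x) ^ 2

lemma fA_ge (x : V 5) : 3 / 4 ≤ fA x := by
  unfold fA
  nlinarith [sq_nonneg (x 0 * x 1 - 1 / 2), sq_nonneg (x 1)]

lemma fA_pos (x : V 5) : 0 < fA x := lt_of_lt_of_le (by norm_num) (fA_ge x)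

lemma fe_pos (s : ℝ) : 0 < fe s := Real.exp_pos _

lemma fe_ge (s : ℝ) : 1 ≤ fe s := Real.one_le_exp (by positivity)

lemma hd_coord {n : ℕ} (x X : V n) (i : Fin n) :
    HasDerivAt (fun r : ℝ => (x + r • X) i) (X i) 0 := by
  have : (fun r : ℝ => (x + r • X) i) = fun r => x i + r * X i := by
    funext r; simp
  rw [this]
  simpa using ((hasDerivAt_id (0 : ℝ)).mul_const (X i)).const_add (x i)

lemma hd_A0 (x X : V 5) :
    HasDerivAt (fun r : ℝ => fA (x + r • X)) (fAs x * X 0 + fAt x * X 1) 0 := by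
  have h0 := hd_coord x X 0
  have h1 := hd_coord x X 1
  have := (((h0.mul h1).const_sub 1).add ((h0.pow 2).mul (h1.pow 2))).add ((h1.pow 2).const_mul 3)
  refine HasDerivAt.congr_deriv this ?_
  simp [fAs, fAt]; ring

lemma hd_As (x X : V 5) :
    HasDerivAt (fun r : ℝ => fAs (x + r • X))
      (2 * (x 1) ^ 2 * X 0 + (-1 + 4 * x 0 * x 1) * X 1) 0 := by
  have h0 := hd_coord x X 0
  have h1 := hd_coord x X 1
  have := h1.neg.add ((h0.const_mul 2).mul (h1.pow 2))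
  refine HasDerivAt.congr_deriv this ?_
  simp; ring

lemma hd_At (x X : V 5) :
    HasDerivAt (fun r : ℝ => fAt (x + r • X))
      ((-1 + 4 * x 0 * x 1) * X 0 + (2 * (x 0) ^ 2 + 6) * X 1) 0 := by
  have h0 := hd_coord x X 0
  have h1 := hd_coord x X 1
  have := (h0.neg.add (((h0.pow 2).const_mul 2).mul h1)).add (h1.const_mul 6)
  refine HasDerivAt.congr_deriv this ?_
  simp; ring

lemma hd_A (x X : V 5) :
    HasDerivAt (fun r : ℝ => fA (x + r • X)) (fA x * (f1 x * X 0 + f2 x * X 1)) 0 := by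
  refine HasDerivAt.congr_deriv (hd_A0 x X) ?_
  have := (fA_pos x).ne'
  unfold f1 f2
  field_simp

lemma hd_f1 (x X : V 5) :
    HasDerivAt (fun r : ℝ => f1 (x + r • X)) (ass x * X 0 + ast x * X 1) 0 := by
  have hA := (fA_pos x).ne'
  have := (hd_As x X).div (hd_A0 x X) (by simpa using hA)
  refine HasDerivAt.congr_deriv this ?_
  simp only [zero_smul, add_zero, ass, ast, f1, f2]
  field_simp
  ring

lemma hd_f2 (x X : V 5) :
    HasDerivAt (fun r : ℝ => f2 (x + r • X)) (ast x * X 0 + att x * X 1) 0 := by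
  have hA := (fA_pos x).ne'
  have := (hd_At x X).div (hd_A0 x X) (by simpa using hA)
  refine HasDerivAt.congr_deriv this ?_
  simp only [zero_smul, add_zero, att, ast, f1, f2]
  field_simp
  ring

lemma hd_p {f : ℝ → ℝ} {d : ℝ} (h : HasDerivAt f d 0) :
    HasDerivAt (fun r : ℝ => fp (f r)) (fq (f 0) * d) 0 := by
  have := ((h.pow 3).const_mul 4).add (h.const_mul 8)
  refine HasDerivAt.congr_deriv this ?_
  simp [fq]; ring

lemma hd_e {f : ℝ → ℝ} {d : ℝ} (h : HasDerivAt f d 0) :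
    HasDerivAt (fun r : ℝ => fe (f r)) (2 * fp (f 0) * fe (f 0) * d) 0 := by
  have := (((h.pow 4).add ((h.pow 2).const_mul 4)).const_mul 2).exp
  refine HasDerivAt.congr_deriv this ?_
  simp [fp, fe]; ring

noncomputable def hh : Met 5 := fun x =>
  Matrix.diagonal ![fA x ^ 2, 1, fA x ^ 2 * fe (x 0), fA x ^ 2 * fe (x 0), fA x ^ 2 * fe (x 0)]

def sg (u v : V 5) : ℝ := u 2 * v 2 + u 3 * v 3 + u 4 * v 4

lemma ip_hh (x u v : V 5) :
    ip (hh x) u v = fA x ^ 2 * (u 0 * v 0) + u 1 * v 1 + fA x ^ 2 * fe (x 0) * sg u v := by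
  simp [ip, hh, sg, dotProduct, Matrix.mulVec_diagonal, Fin.sum_univ_five]
  ring

lemma ld_ip (x u v w : V 5) :
    lineDeriv ℝ (fun z => ip (hh z) u v) x w =
      2 * fA x ^ 2 * (f1 x * w 0 + f2 x * w 1) * (u 0 * v 0)
        + 2 * fA x ^ 2 * fe (x 0) * (f1 x * w 0 + f2 x * w 1 + fp (x 0) * w 0) * sg u v := by
  have hA := hd_A x w
  have he := hd_e (hd_coord x w 0)
  have := ((((hA.pow 2).mul_const (u 0 * v 0)).add_const (u 1 * v 1)).add
    (((hA.pow 2).mul he).mul_const (sg u v)))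
  have h2 : HasDerivAt (fun r : ℝ => ip (hh (x + r • w)) u v) _ 0 :=
    this.congr_of_eventuallyEq (Filter.Eventually.of_forall fun r => by
      simp only [ip_hh]; rfl)
  rw [lineDeriv, h2.deriv]
  simp; ring

lemma hh_inv (x : V 5) : (hh x)⁻¹ = Matrix.diagonal
    ![(fA x ^ 2)⁻¹, 1, (fA x ^ 2 * fe (x 0))⁻¹, (fA x ^ 2 * fe (x 0))⁻¹,
      (fA x ^ 2 * fe (x 0))⁻¹] := by
  have hA := (fA_pos x).ne'
  have he := (fe_pos (x 0)).ne'
  apply Matrix.inv_eq_right_inv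
  rw [hh, Matrix.diagonal_mul_diagonal, ← Matrix.diagonal_one]
  congr 1
  funext i
  fin_cases i <;> simp <;> field_simp

def G (a1 a2 a3 a4 a5 a6 : ℝ) (u v : V 5) : V 5 :=
  ![a1 * (u 0 * v 0) + a2 * (u 0 * v 1 + u 1 * v 0) - a3 * sg u v,
    - a4 * (u 0 * v 0) - a5 * sg u v,
    a6 * (u 0 * v 2 + u 2 * v 0) + a2 * (u 1 * v 2 + u 2 * v 1),
    a6 * (u 0 * v 3 + u 3 * v 0) + a2 * (u 1 * v 3 + u 3 * v 1),
    a6 * (u 0 * v 4 + u 4 * v 0) + a2 * (u 1 * v 4 + u 4 * v 1)]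

lemma chr_hh (x u v : V 5) : chr hh x u v =
    G (f1 x) (f2 x) ((f1 x + fp (x 0)) * fe (x 0)) (fA x ^ 2 * f2 x)
      (fA x ^ 2 * f2 x * fe (x 0)) (f1 x + fp (x 0)) u v := by
  have hA := (fA_pos x).ne'
  have he := (fe_pos (x 0)).ne'
  unfold chr
  simp only [ld_ip, hh_inv]
  funext k
  rw [Matrix.mulVec_diagonal]
  fin_cases k <;> simp [G, bv, sg] <;> field_simp <;> ring

lemma hd_G {a1 a2 a3 a4 a5 a6 : ℝ → ℝ} {d1 d2 d3 d4 d5 d6 : ℝ}
    (h1 : HasDerivAt a1 d1 0) (h2 : HasDerivAt a2 d2 0) (h3 : HasDerivAt a3 d3 0)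
    (h4 : HasDerivAt a4 d4 0) (h5 : HasDerivAt a5 d5 0) (h6 : HasDerivAt a6 d6 0) (u v : V 5) :
    HasDerivAt (fun r => G (a1 r) (a2 r) (a3 r) (a4 r) (a5 r) (a6 r) u v)
      (G d1 d2 d3 d4 d5 d6 u v) 0 := by
  rw [hasDerivAt_pi]
  intro i
  fin_cases i
  · exact ((h1.mul_const _).add (h2.mul_const _)).sub (h3.mul_const _)
  · exact (h4.neg.mul_const _).sub (h5.mul_const _)
  · exact (h6.mul_const _).add (h2.mul_const _)
  · exact (h6.mul_const _).add (h2.mul_const _)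
  · exact (h6.mul_const _).add (h2.mul_const _)

lemma ld_chr (x X u v : V 5) : lineDeriv ℝ (fun z => chr hh z u v) x X =
    G (ass x * X 0 + ast x * X 1) (ast x * X 0 + att x * X 1)
      ((ass x * X 0 + ast x * X 1 + fq (x 0) * X 0) * fe (x 0)
        + (f1 x + fp (x 0)) * (2 * fp (x 0) * fe (x 0) * X 0))
      (2 * fA x ^ 2 * (f1 x * X 0 + f2 x * X 1) * f2 x + fA x ^ 2 * (ast x * X 0 + att x * X 1))
      ((2 * fA x ^ 2 * (f1 x * X 0 + f2 x * X 1) * f2 x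
          + fA x ^ 2 * (ast x * X 0 + att x * X 1)) * fe (x 0)
        + fA x ^ 2 * f2 x * (2 * fp (x 0) * fe (x 0) * X 0))
      (ass x * X 0 + ast x * X 1 + fq (x 0) * X 0) u v := by
  have hA := hd_A x X
  have he := hd_e (hd_coord x X 0)
  have hp := hd_p (hd_coord x X 0)
  have h1 := hd_f1 x X
  have h2 := hd_f2 x X
  have h6 := h1.add hp
  have h4 := (hA.pow 2).mul h2
  have := hd_G h1 h2 (h6.mul he) h4 (h4.mul he) h6 u v
  have h3 : HasDerivAt (fun r : ℝ => chr hh (x + r • X) u v) _ 0 :=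
    this.congr_of_eventuallyEq (Filter.Eventually.of_forall fun r => by
      simp only [chr_hh]; rfl)
  rw [lineDeriv, h3.deriv]
  simp only [Pi.add_apply, Pi.mul_apply, Pi.pow_apply, zero_smul, add_zero, Pi.zero_apply]
  congr 1 <;> push_cast <;> ring

end Pool.Agent.H.MP_44343f_gt
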