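import Pool.Agent.H.MP_44343f_gt.Bih

namespace Pool.Agent.H.MP_44343f_gt

open Matrix

lemma complete_of_ge {n : ℕ} (g : Met n) (hc : ∀ i j, Continuous fun x => g x i j)
    (hg : ∀ x v, ‖v‖ ≤ 2 * √(ip (g x) v v)) : Complete g := by
  intro x hx
  apply cauchySeq_tendsto_of_complete
  rw [Metric.cauchySeq_iff]
  intro ε hε
  obtain ⟨N, hN⟩ := hx (ε / 2) (by positivity)
  refine ⟨N, fun k hk l hl => ?_⟩
  obtain ⟨c, hc1, h0, h1, hlen⟩ := hN k l hk hl
  have hd : Continuous (deriv c) := hc1.continuous_deriv_one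
  have hcc : Continuous c := hc1.continuous
  have hdiff : Differentiable ℝ c := hc1.differentiable (by norm_num)
  have hint : ∫ r in (0 : ℝ)..1, deriv c r = c 1 - c 0 :=
    intervalIntegral.integral_deriv_eq_sub (fun r _ => hdiff r) (hd.intervalIntegrable _ _)
  have hcont : Continuous fun r => √(ip (g (c r)) (deriv c r) (deriv c r)) := by
    apply Continuous.sqrt
    simp only [ip, dotProduct, Matrix.mulVec]
    refine continuous_finsetSum _ fun i _ => ((continuous_apply i).comp hd).mul ?_
    exact continuous_finsetSum _ fun j _ =>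
      ((hc i j).comp hcc).mul ((continuous_apply j).comp hd)
  rw [dist_comm, dist_eq_norm, ← h0, ← h1, ← hint]
  calc ‖∫ r in (0 : ℝ)..1, deriv c r‖ ≤ ∫ r in (0 : ℝ)..1, ‖deriv c r‖ :=
        intervalIntegral.norm_integral_le_integral_norm zero_le_one
    _ ≤ ∫ r in (0 : ℝ)..1, 2 * √(ip (g (c r)) (deriv c r) (deriv c r)) :=
        intervalIntegral.integral_mono_on zero_le_one (hd.norm.intervalIntegrable _ _)
          ((hcont.const_mul 2).intervalIntegrable _ _) fun r _ => hg _ _
    _ < ε := by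
        rw [intervalIntegral.integral_const_mul]; linarith

lemma norm_le_of_sq {n : ℕ} (v : V n) (q : ℝ) (h : ∀ i, (v i) ^ 2 ≤ 4 * q) :
    ‖v‖ ≤ 2 * √q := by
  refine (pi_norm_le_iff_of_nonneg (by positivity)).2 fun i => ?_
  rw [Real.norm_eq_abs]
  have : 2 * √q = √(4 * q) := by
    rw [Real.sqrt_mul (by norm_num), show (4 : ℝ) = 2 ^ 2 by norm_num,
      Real.sqrt_sq (by norm_num)]
  rw [this]
  exact Real.abs_le_sqrt (h i)

lemma hh_ge (x v : V 5) : ‖v‖ ≤ 2 * √(ip (hh x) v v) := by
  apply norm_le_of_sq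
  intro i
  rw [ip_hh]
  have hA := fA_ge x
  have he := fe_ge (x 0)
  have hA2 : 1 / 4 ≤ fA x ^ 2 := by nlinarith
  have hB : 1 / 4 ≤ fA x ^ 2 * fe (x 0) := by nlinarith
  have h0 := mul_self_nonneg (v 0)
  have h1 := mul_self_nonneg (v 1)
  have h2 := mul_self_nonneg (v 2)
  have h3 := mul_self_nonneg (v 3)
  have h4 := mul_self_nonneg (v 4)
  have hs : 0 ≤ sg v v := by unfold sg; positivity
  have k0 := mul_le_mul_of_nonneg_right hA2 h0
  have ks := mul_le_mul_of_nonneg_right hB hs
  unfold sg at *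
  fin_cases i <;> simp <;> nlinarith

lemma gg_ge (x v : V 4) : ‖v‖ ≤ 2 * √(ip (gg x) v v) := by
  apply norm_le_of_sq
  intro i
  rw [ip_gg]
  have he := fe_ge (x 0)
  have h0 := mul_self_nonneg (v 0)
  have h1 := mul_self_nonneg (v 1)
  have h2 := mul_self_nonneg (v 2)
  have h3 := mul_self_nonneg (v 3)
  have hs : 0 ≤ sg4 v v := by unfold sg4; positivity
  have ks := mul_le_mul_of_nonneg_right he hs
  unfold sg4 at *
  fin_cases i <;> simp <;> nlinarith

lemma hh_metric : IsMetric hh := by
  constructor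
  · intro i j
    have hA : ContDiff ℝ (⊤ : ℕ∞) fA := by unfold fA; fun_prop
    have he : ContDiff ℝ (⊤ : ℕ∞) (fun x : V 5 => fe (x 0)) := by unfold fe; fun_prop
    by_cases hij : i = j
    · subst hij
      simp only [hh, Matrix.diagonal_apply_eq]
      fin_cases i
      · exact hA.pow 2
      · exact contDiff_const
      · exact (hA.pow 2).mul he
      · exact (hA.pow 2).mul he
      · exact (hA.pow 2).mul he
    · simp only [hh, Matrix.diagonal_apply_ne _ hij]
      exact contDiff_const
  · intro x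
    have hA := fA_pos x
    have he := fe_pos (x 0)
    apply Matrix.PosDef.diagonal
    intro i
    fin_cases i <;> simp <;> positivity

lemma gg_metric : IsMetric gg := by
  constructor
  · intro i j
    have he : ContDiff ℝ (⊤ : ℕ∞) (fun x : V 4 => fe (x 0)) := by unfold fe; fun_prop
    by_cases hij : i = j
    · subst hij
      simp only [gg, Matrix.diagonal_apply_eq]
      fin_cases i
      · exact contDiff_const
      · exact he
      · exact he
      · exact he
    · simp only [gg, Matrix.diagonal_apply_ne _ hij]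
      exact contDiff_const
  · intro x
    have he := fe_pos (x 0)
    apply Matrix.PosDef.diagonal
    intro i
    fin_cases i <;> simp <;> positivity

theorem main : ∃ (h : Met 5) (φ : V 4 → V 5),
    IsMetric h ∧ Complete h ∧ (∀ x X Y, ip (h x) (curv h x X Y Y) X ≤ 0) ∧
    ContDiff ℝ (⊤ : ℕ∞) φ ∧ Function.Injective φ ∧ IsMetric (ind h φ) ∧ Complete (ind h φ) ∧
    (∀ p, bitension h φ p = 0) ∧ ∃ p, tension h φ p ≠ 0 := by
  refine ⟨hh, ph, hh_metric, complete_of_ge hh (fun i j => (hh_metric.1 i j).continuous) hh_ge,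
    sec_nonpos, ?_, ?_, ?_, ?_, bitension_eq, ⟨fun _ => 1, ?_⟩⟩
  · rw [contDiff_pi]
    intro i
    fin_cases i
    · exact contDiff_apply ℝ ℝ 0
    · exact contDiff_const
    · exact contDiff_apply ℝ ℝ 1
    · exact contDiff_apply ℝ ℝ 2
    · exact contDiff_apply ℝ ℝ 3
  · intro p q hpq
    funext i
    fin_cases i
    · exact congrFun hpq 0
    · exact congrFun hpq 2
    · exact congrFun hpq 3
    · exact congrFun hpq 4
  · rw [ind_eq]; exact gg_metric
  · rw [ind_eq]
    exact complete_of_ge gg (fun i j => (gg_metric.1 i j).continuous) gg_ge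
  · rw [tension_eq]
    intro h
    have := congrFun h 1
    simp [tau] at this

end Pool.Agent.H.MP_44343f_gt
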