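import Pool.Agent.H.MP_44343f_gt.Chr

namespace Pool.Agent.H.MP_44343f_gt

open Matrix

def wd (X Y : V 5) (i j : Fin 5) : ℝ := X i * Y j - X j * Y i

noncomputable def cP (x : V 5) : ℝ :=
  ass x + fq (x 0) + f1 x * fp (x 0) + fp (x 0) ^ 2 + fA x ^ 2 * f2 x ^ 2

noncomputable def cR (x : V 5) : ℝ := att x + f2 x ^ 2

lemma sec_formula (x X Y : V 5) : ip (hh x) (curv hh x X Y Y) X =
    - (fA x ^ 2 * cR x * wd X Y 0 1 ^ 2)
    - fA x ^ 2 * fe (x 0) *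
      ((cP x * wd X Y 0 2 ^ 2 + 2 * ast x * wd X Y 0 2 * wd X Y 1 2 + cR x * wd X Y 1 2 ^ 2)
      + (cP x * wd X Y 0 3 ^ 2 + 2 * ast x * wd X Y 0 3 * wd X Y 1 3 + cR x * wd X Y 1 3 ^ 2)
      + (cP x * wd X Y 0 4 ^ 2 + 2 * ast x * wd X Y 0 4 * wd X Y 1 4 + cR x * wd X Y 1 4 ^ 2))
    - fA x ^ 2 * fe (x 0) ^ 2 * ((f1 x + fp (x 0)) ^ 2 + fA x ^ 2 * f2 x ^ 2) *
      (wd X Y 2 3 ^ 2 + wd X Y 2 4 ^ 2 + wd X Y 3 4 ^ 2) := by
  unfold curv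
  rw [ld_chr, ld_chr]
  simp only [chr_hh, ip_hh, cP, cR, wd]
  generalize fA x = A
  generalize f1 x = a1
  generalize f2 x = a2
  generalize fe (x 0) = e
  generalize fp (x 0) = p
  generalize fq (x 0) = q
  generalize ass x = ss
  generalize ast x = st
  generalize att x = tt
  simp only [G, sg, Pi.add_apply, Pi.sub_apply, Matrix.cons_val_zero, Matrix.cons_val_one,
    Matrix.cons_val]
  ring

lemma cR_eq (x : V 5) : cR x = (2 * (x 0) ^ 2 + 6) / fA x := by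
  unfold cR att; ring

lemma cR_pos (x : V 5) : 0 < cR x := by
  rw [cR_eq]; have := fA_pos x; positivity

lemma f1_sq (x : V 5) : f1 x ^ 2 ≤ 1 / 3 := by
  have hA := fA_pos x
  unfold f1
  rw [div_pow, div_le_div_iff₀ (by positivity) (by norm_num)]
  unfold fA fAs
  obtain ⟨s, hs⟩ : ∃ s, s = x 0 := ⟨_, rfl⟩
  obtain ⟨t, ht⟩ : ∃ t, t = x 1 := ⟨_, rfl⟩
  rw [← hs, ← ht]
  nlinarith [sq_nonneg (1 - s * t + s ^ 2 * t ^ 2 - 3 * t ^ 2), sq_nonneg t]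

lemma cP_ge (x : V 5) : 7 ≤ cP x := by
  have hA := fA_pos x
  have h1 := f1_sq x
  have h2 : 0 ≤ 2 * (x 1) ^ 2 / fA x := by positivity
  have h3 : 8 ≤ fq (x 0) := by unfold fq; nlinarith [sq_nonneg (x 0)]
  unfold cP ass
  nlinarith [sq_nonneg (fp (x 0) + f1 x / 2), sq_nonneg (fA x * f2 x)]

lemma ast_eq (x : V 5) :
    ast x = (-1 + 4 * (x 0 * x 1) - (x 0 * x 1) ^ 2 + 3 * (x 1) ^ 2) / fA x ^ 2 := by
  have hA := (fA_pos x).ne'
  unfold ast f1 f2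
  field_simp
  unfold fA fAs fAt
  ring

lemma ast_sq (x : V 5) : ast x ^ 2 ≤ cP x * cR x := by
  have hA := fA_pos x
  have hA' := fA_ge x
  have hP := cP_ge x
  have hq : (-1 + 4 * (x 0 * x 1) - (x 0 * x 1) ^ 2 + 3 * (x 1) ^ 2) ^ 2 ≤ (4 * fA x) ^ 2 := by
    apply sq_le_sq'
    · unfold fA
      nlinarith [sq_nonneg (x 0 * x 1), sq_nonneg (x 1)]
    · unfold fA
      nlinarith [sq_nonneg (x 0 * x 1 - 1), sq_nonneg (x 1), sq_nonneg (x 0 * x 1)]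
  have h1 : ast x ^ 2 ≤ 16 / fA x ^ 2 := by
    rw [ast_eq, div_pow, div_le_div_iff₀ (by positivity) (by positivity)]
    have : 0 < fA x ^ 2 := by positivity
    nlinarith
  have h2 : 16 / fA x ^ 2 ≤ 7 * cR x := by
    rw [cR_eq, div_le_iff₀ (by positivity)]
    have : 7 * ((2 * x 0 ^ 2 + 6) / fA x) * fA x ^ 2 = 7 * (2 * x 0 ^ 2 + 6) * fA x := by
      field_simp
    rw [this]
    nlinarith [sq_nonneg (x 0), mul_nonneg (sq_nonneg (x 0)) hA.le]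
  have h3 := cR_pos x
  nlinarith

lemma quad_nonneg {P R S a b : ℝ} (hR : 0 < R) (h : S ^ 2 ≤ P * R) :
    0 ≤ P * a ^ 2 + 2 * S * a * b + R * b ^ 2 := by
  have : 0 ≤ R * (P * a ^ 2 + 2 * S * a * b + R * b ^ 2) := by
    nlinarith [sq_nonneg (S * a + R * b), mul_nonneg (sub_nonneg.2 h) (sq_nonneg a)]
  exact (mul_nonneg_iff_of_pos_left hR).1 this

lemma sec_nonpos (x X Y : V 5) : ip (hh x) (curv hh x X Y Y) X ≤ 0 := by
  rw [sec_formula]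
  have hR := cR_pos x
  have he := fe_pos (x 0)
  have h2 := quad_nonneg (a := wd X Y 0 2) (b := wd X Y 1 2) hR (ast_sq x)
  have h3 := quad_nonneg (a := wd X Y 0 3) (b := wd X Y 1 3) hR (ast_sq x)
  have h4 := quad_nonneg (a := wd X Y 0 4) (b := wd X Y 1 4) hR (ast_sq x)
  have k1 : 0 ≤ fA x ^ 2 * cR x * wd X Y 0 1 ^ 2 := by positivity
  have k2 := mul_nonneg (show 0 ≤ fA x ^ 2 * fe (x 0) by positivity)
    (add_nonneg (add_nonneg h2 h3) h4)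
  have k3 : 0 ≤ fA x ^ 2 * fe (x 0) ^ 2 * ((f1 x + fp (x 0)) ^ 2 + fA x ^ 2 * f2 x ^ 2) *
      (wd X Y 2 3 ^ 2 + wd X Y 2 4 ^ 2 + wd X Y 3 4 ^ 2) := by positivity
  linarith

end Pool.Agent.H.MP_44343f_gt
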